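import Pool.Agent.N126.IS.Stm3
import Pool.Agent.N738.IS.CNT

/-!
# Project IS2 (helper126), part CNT2 (helper296): generic linear maps and two points

Model: `N738/IS/CNT.lean` by helper738.
-/

set_option autoImplicit false

open Pool.Agent.N126.IS Pool.Agent.N738.IS MvPolynomial

namespace Pool.Agent.N296.IS

/-- counting generators of a field over which an algebraically independent family is algebraic -/
theorem count' {k0 k ι : Type} [Field k0] [Field k] [Algebra k0 k] [Fintype ι] (x : ι → k)
    (hx : AlgebraicIndependent k0 x) (T : Finset k)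
    (h : ∀ i, IsAlgebraic (IntermediateField.adjoin k0 (T : Set k)) (x i)) :
    Fintype.card ι ≤ T.card := by
  classical
  have h1 : (AlgebraicIndependent.matroid k0 k).Indep (Set.range x) :=
    AlgebraicIndependent.matroid_indep_iff.mpr hx.to_subtype_range
  have h2 : Set.range x ⊆ (AlgebraicIndependent.matroid k0 k).closure (T : Set k) := by
    rintro _ ⟨i, rfl⟩
    rw [AlgebraicIndependent.matroid_closure_eq, SetLike.mem_coe]
    exact (IntermediateField.isAlgebraic_adjoin_iff).1 (h i)
  have h3 := h1.encard_le_eRk_of_subset h2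
  rw [Matroid.eRk_closure_eq] at h3
  have h4 := h3.trans (Matroid.eRk_le_encard _ _)
  rw [Set.encard_coe_eq_coe_finsetCard, ← Set.image_univ,
    hx.injective.encard_image, Set.encard_univ, ENat.card_eq_coe_fintype_card] at h4
  exact_mod_cast h4

theorem alg_mono {k0 k : Type} [Field k0] [Field k] [Algebra k0 k] {A B : IntermediateField k0 k}
    (hAB : A ≤ B) {x : k} (h : IsAlgebraic A x) : IsAlgebraic B x := by
  letI := (IntermediateField.inclusion hAB).toRingHom.toAlgebra
  haveI : IsScalarTower A B k := IsScalarTower.of_algebraMap_eq fun _ => rfl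
  exact h.tower_top B

theorem main_CNT2 : S_CNT2 := by
  classical
  intro k0 k _ _ _ n N d ι0 H hdim hNd g hind μ b b' v v' hμ hμ0 hbb hv hv' hall
  -- the points are independent
  have hli : ∀ j, LinearIndependent k ![v j, v' j] := by
    intro j
    rw [LinearIndependent.pair_iff] at hbb ⊢
    intro s t hst
    apply hbb s t
    funext a
    have h1 := (hall j a).1
    have h2 := (hall j a).2
    have h3 : ∑ i, g j a i * (s • v j + t • v' j) i = 0 := by
      rw [hst]; simp
    have h4 : ∑ i, g j a i * (s • v j + t • v' j) i =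
        s * (∑ i, g j a i * v j i) + t * ∑ i, g j a i * v' j i := by
      rw [Finset.mul_sum, Finset.mul_sum, ← Finset.sum_add_distrib]
      refine Finset.sum_congr rfl fun i _ => ?_
      simp only [Pi.add_apply, Pi.smul_apply, smul_eq_mul]
      ring
    rw [h4, h1, h2] at h3
    have h5 : μ j a * (s * b a + t * b' a) = 0 := by linear_combination h3
    simpa using (mul_eq_zero.1 h5).resolve_left (hμ j a)
  choose f hf1 hf2 using fun j => select ![v j, v' j] (hli j)
  choose B hB1 hB2 using fun j => hdim k (v j) (hv j)
  choose B' hB1' hB2' using fun j => hdim k (v' j) (hv' j)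
  -- the generators
  let T1 : Finset k := Finset.univ.image b ∪ Finset.univ.image b'
  let T2 : Finset k := Finset.univ.biUnion fun j : Fin (2 * N + 3) =>
    ((Finset.univ : Finset (Fin (N + 1))).erase 0).image (μ j)
  let T3 : Finset k := Finset.univ.biUnion fun j : Fin (2 * N + 3) =>
    (B j).image (v j) ∪ (B' j).image (v' j)
  let T4 : Finset k := Finset.univ.biUnion fun j : Fin (2 * N + 3) =>
    Finset.univ.biUnion fun a : Fin (N + 1) =>
      (Finset.univ \ Finset.univ.image (f j)).image (g j a)
  have hT1 : T1.card ≤ 2 * (N + 1) := by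
    refine (Finset.card_union_le _ _).trans ?_
    have h1 : (Finset.univ.image b).card ≤ N + 1 := Finset.card_image_le.trans (by simp)
    have h2 : (Finset.univ.image b').card ≤ N + 1 := Finset.card_image_le.trans (by simp)
    omega
  have hT2 : T2.card ≤ (2 * N + 3) * N := by
    have h := Finset.card_biUnion_le_card_mul (Finset.univ : Finset (Fin (2 * N + 3)))
      (fun j => ((Finset.univ : Finset (Fin (N + 1))).erase 0).image (μ j)) N
      (fun a _ => Finset.card_image_le.trans (by simp))
    simpa using h
  have hT3 : T3.card ≤ (2 * N + 3) * (2 * (d + 1)) := by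
    have h := Finset.card_biUnion_le_card_mul (Finset.univ : Finset (Fin (2 * N + 3)))
      (fun j => (B j).image (v j) ∪ (B' j).image (v' j)) (2 * (d + 1))
      (fun j _ => by
        refine (Finset.card_union_le _ _).trans ?_
        have h1 : ((B j).image (v j)).card ≤ d + 1 := Finset.card_image_le.trans (hB1 j)
        have h2 : ((B' j).image (v' j)).card ≤ d + 1 := Finset.card_image_le.trans (hB1' j)
        omega)
    simpa using h
  have hcf : ∀ j, (Finset.univ.image (f j)).card = 2 := by
    intro j
    rw [Finset.card_image_of_injective _ (hf1 j)]; simp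
  have hn : 2 ≤ n + 1 := by
    have h1 : (Finset.univ.image (f 0)).card ≤ Fintype.card (Fin (n + 1)) := Finset.card_le_univ _
    rw [hcf 0, Fintype.card_fin] at h1
    exact h1
  have hT4 : T4.card ≤ (2 * N + 3) * ((N + 1) * (n - 1)) := by
    have h := Finset.card_biUnion_le_card_mul (Finset.univ : Finset (Fin (2 * N + 3)))
      (fun j => Finset.univ.biUnion fun a : Fin (N + 1) =>
        (Finset.univ \ Finset.univ.image (f j)).image (g j a)) ((N + 1) * (n - 1))
      (fun j _ => by
        have h := Finset.card_biUnion_le_card_mul (Finset.univ : Finset (Fin (N + 1)))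
          (fun a => (Finset.univ \ Finset.univ.image (f j)).image (g j a)) (n - 1)
          (fun a _ => Finset.card_image_le.trans (by
            rw [Finset.card_sdiff_of_subset (Finset.subset_univ _), hcf j, Finset.card_univ,
              Fintype.card_fin]
            omega))
        simpa using h)
    simpa using h
  let T : Finset k := T1 ∪ T2 ∪ T3 ∪ T4
  let E := IntermediateField.adjoin k0 (T : Set k)
  let F : IntermediateField k0 k := (algebraicClosure E k).restrictScalars k0
  have hF : ∀ x : k, x ∈ F ↔ IsAlgebraic E x := fun x => mem_algebraicClosure_iff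
  have hTF : ∀ x ∈ T, x ∈ F := fun x hx => (hF x).2
    (isAlgebraic_algebraMap (⟨x, IntermediateField.subset_adjoin _ _ hx⟩ : E))
  have hbF : ∀ a, b a ∈ F := fun a => hTF _ (Finset.mem_union_left _ (Finset.mem_union_left _
    (Finset.mem_union_left _ (Finset.mem_union_left _ (Finset.mem_image_of_mem _ (Finset.mem_univ a))))))
  have hbF' : ∀ a, b' a ∈ F := fun a => hTF _ (Finset.mem_union_left _ (Finset.mem_union_left _
    (Finset.mem_union_left _ (Finset.mem_union_right _ (Finset.mem_image_of_mem _ (Finset.mem_univ a))))))
  have hμF : ∀ j a, μ j a ∈ F := by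
    intro j a
    by_cases ha : a = 0
    · rw [ha, hμ0]; exact one_mem _
    · refine hTF _ (Finset.mem_union_left _ (Finset.mem_union_left _
        (Finset.mem_union_right _ ?_)))
      exact Finset.mem_biUnion.mpr ⟨j, Finset.mem_univ _, Finset.mem_image.mpr
        ⟨a, Finset.mem_erase.mpr ⟨ha, Finset.mem_univ _⟩, rfl⟩⟩
  have hvF : ∀ j i, v j i ∈ F := by
    intro j i
    rw [hF]
    refine alg_mono (IntermediateField.adjoin.mono k0 _ _ ?_) (hB2 j i)
    rintro _ ⟨i', hi', rfl⟩
    refine Finset.mem_coe.2 (Finset.mem_union_left _ (Finset.mem_union_right _ ?_))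
    exact Finset.mem_biUnion.mpr ⟨j, Finset.mem_univ _, Finset.mem_union_left _
      (Finset.mem_image_of_mem _ hi')⟩
  have hvF' : ∀ j i, v' j i ∈ F := by
    intro j i
    rw [hF]
    refine alg_mono (IntermediateField.adjoin.mono k0 _ _ ?_) (hB2' j i)
    rintro _ ⟨i', hi', rfl⟩
    refine Finset.mem_coe.2 (Finset.mem_union_left _ (Finset.mem_union_right _ ?_))
    exact Finset.mem_biUnion.mpr ⟨j, Finset.mem_univ _, Finset.mem_union_right _
      (Finset.mem_image_of_mem _ hi')⟩
  have hgF : ∀ j a i, g j a i ∈ F := by
    intro j a i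
    have key := elim F (p := 2) (I := Option (Fin (n + 1)))
      (fun r o => o.elim (-(μ j a * (![b, b'] r) a)) (fun i => (![v j, v' j] r) i)) ?_
      (fun r => some (f j r)) (fun r r' h => hf1 j (Option.some.inj h)) (hf2 j)
      (fun o => o.elim 1 (fun i => g j a i)) ?_ ?_ (some i)
    · exact key
    · intro r o
      cases o with
      | none =>
        fin_cases r
        · exact neg_mem (mul_mem (hμF j a) (hbF a))
        · exact neg_mem (mul_mem (hμF j a) (hbF' a))
      | some i =>
        fin_cases r
        · exact hvF j i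
        · exact hvF' j i
    · intro o ho
      cases o with
      | none => exact one_mem _
      | some i =>
        refine hTF _ (Finset.mem_union_right _ ?_)
        refine Finset.mem_biUnion.mpr ⟨j, Finset.mem_univ _, Finset.mem_biUnion.mpr
          ⟨a, Finset.mem_univ _, Finset.mem_image.mpr ⟨i, Finset.mem_sdiff.mpr
            ⟨Finset.mem_univ _, fun hi => ho ?_⟩, rfl⟩⟩⟩
        obtain ⟨r, _, hr⟩ := Finset.mem_image.1 hi
        exact Finset.mem_image.2 ⟨r, Finset.mem_univ _, by rw [hr]⟩
    · intro r
      rw [Fintype.sum_option]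
      fin_cases r
      · have h1 := (hall j a).1
        simp only [Option.elim]
        show 1 * -(μ j a * b a) + ∑ i, g j a i * v j i = 0
        rw [h1]; ring
      · have h1 := (hall j a).2
        simp only [Option.elim]
        show 1 * -(μ j a * b' a) + ∑ i, g j a i * v' j i = 0
        rw [h1]; ring
  have hcount := count' _ hind T (fun p => (hF _).1 (hgF p.1 p.2.1 p.2.2))
  have hTc : T.card ≤ 2 * (N + 1) + (2 * N + 3) * N + (2 * N + 3) * (2 * (d + 1)) +
      (2 * N + 3) * ((N + 1) * (n - 1)) := by
    refine (Finset.card_union_le _ _).trans (Nat.add_le_add ?_ hT4)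
    refine (Finset.card_union_le _ _).trans (Nat.add_le_add ?_ hT3)
    exact (Finset.card_union_le _ _).trans (Nat.add_le_add hT1 hT2)
  rw [Fintype.card_prod, Fintype.card_prod, Fintype.card_fin, Fintype.card_fin,
    Fintype.card_fin] at hcount
  have h1 := hcount.trans hTc
  obtain ⟨m, rfl⟩ : ∃ m, n = m + 1 := ⟨n - 1, by omega⟩
  obtain ⟨e, rfl⟩ : ∃ e, N = 2 * d + 1 + e := ⟨N - (2 * d + 1), by omega⟩
  rw [Nat.add_sub_cancel] at h1
  nlinarith [h1]

end Pool.Agent.N296.IS
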